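import Mathlib
import Pool.Agent.Results.MP_5b0587_nt.ThirdSum
import Pool.Agent.Results.MP_5b0587_nt.FirstSumOneModTwelve
import Pool.Agent.T6.H7.SB.S1
import Pool.Agent.T6.H7.SB.S2A
import Pool.Agent.T6.H7.SB.S2B

/-!
# The three sums of MP_5b0587_nt modulo `p^2`, `p = 1` modulo `3`

`S_1`, `S_2`, `S_3` are the sums `∑ C(-1/4,k)^2 4^k`, `∑ C(-1/4,k) C(-1/2,k) (-8)^k`,
`∑ C(-1/4,k)^2 4^(-k)` over `k < p`.

Method. Each sum is a truncated `2F1` with parameters `(1/4,1/4;1)` or `(1/4,1/2;1)`, and depends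
linearly, modulo `p^2`, on the parameters. At `-8` the terminating series
`F(-n,-3n-1/4;-4n;-8)` and `F(1/12-r,-3r;1/3-4r;-8)` have closed forms; so `S_2` is found from two
products of values of the factorial, in which the harmonic number of index `(p-1)/12` (or
`(p-7)/12`) cancels. The result is `S_2 = (2/p) S_3` for `p = 1` modulo `12` and `S_2 = 2 (2/p) S_3`
for `p = 7` modulo `12`. For `p = 7` modulo `12`, also `S_1 = 2 (2/p) S_3`, by reversing the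
terminating series. The values of `S_3`, and of `S_1` for `p = 1` modulo `12`, are the starting
results `ThirdSum` and `FirstSumOneModTwelve`.
-/

set_option autoImplicit false

namespace Pool.Agent.Results.MP_5b0587_nt.AllThreeSums

open Finset

/-- the generalised binomial coefficient `a (a-1) ⋯ (a-k+1) / k!` -/
def gbinom (a : ℚ) (k : ℕ) : ℚ := (∏ i ∈ range k, (a - i)) / k.factorial

/-- `S_1(p) = ∑_{k=0}^{p-1} C(-1/4,k)^2 4^k` -/
def S₁ (p : ℕ) : ℚ := ∑ k ∈ range p, gbinom (-(1 / 4)) k ^ 2 * 4 ^ k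

/-- `S_2(p) = ∑_{k=0}^{p-1} C(-1/4,k) C(-1/2,k) (-8)^k` -/
def S₂ (p : ℕ) : ℚ := ∑ k ∈ range p, gbinom (-(1 / 4)) k * gbinom (-(1 / 2)) k * (-8) ^ k

/-- `S_3(p) = ∑_{k=0}^{p-1} C(-1/4,k)^2 4^(-k)` -/
def S₃ (p : ℕ) : ℚ := ∑ k ∈ range p, gbinom (-(1 / 4)) k ^ 2 * (1 / 4) ^ k

/-- `x ≡ y (mod p^2)` for rational numbers `x`, `y` with denominators prime to `p`:
the numerator of `x - y` (in lowest terms) is divisible by `p^2`. -/
def CongrSq (p : ℕ) (x y : ℚ) : Prop :=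
  ¬ p ∣ x.den ∧ ¬ p ∣ y.den ∧ (p : ℤ) ^ 2 ∣ (x - y).num

open Pool.Agent.R439.PL Pool.Agent.R488.Cub Pool.Agent.R488 Pool.Agent.T6.H7.SB
open Pool.Agent.Results.MP_5b0587_nt (ThirdSum.num_of_I ThirdSum.congr_of_EQ ThirdSum.S_eq)

theorem mem_of_den {p : ℕ} [hp : Fact p.Prime] {x : ℚ} (h : ¬ p ∣ x.den) : x ∈ Zp p := by
  refine ⟨x.num, x.den, ?_, ?_⟩
  · exact_mod_cast h
  · have := Rat.num_div_den x
    push_cast
    exact this.symm

theorem I_of_num {p : ℕ} [hp : Fact p.Prime] {x : ℚ} (h : (p : ℤ) ^ 2 ∣ x.num)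
    (hd : ¬ p ∣ x.den) : I p 2 x := by
  obtain ⟨c, hc⟩ := h
  refine ⟨(c : ℚ) / (x.den : ℤ), ⟨c, x.den, by exact_mod_cast hd, rfl⟩, ?_⟩
  have h1 := (Rat.num_div_den x).symm
  have h2 : (x.num : ℚ) = (p : ℚ) ^ 2 * c := by
    rw [hc]; push_cast; ring
  rw [h2, mul_div_assoc] at h1
  push_cast
  exact h1

theorem den_of_mem {p : ℕ} [hp : Fact p.Prime] {x : ℚ} (h : x ∈ Zp p) : ¬ p ∣ x.den := by
  have := den_of_I (p := p) (k := 0) (I_zero_iff.2 h)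
  rwa [pow_zero, div_one] at this

theorem EQ_of_congr {p : ℕ} [Fact p.Prime] {x y : ℚ} (h : CongrSq p x y) : EQ p 2 x y := by
  have hx := mem_of_den h.1
  have hy := mem_of_den h.2.1
  exact ⟨hx, hy, I_of_num h.2.2 (den_of_mem (sub_mem hx hy))⟩

theorem congr_of_EQ {p : ℕ} [Fact p.Prime] {x y : ℚ} (h : EQ p 2 x y) : CongrSq p x y :=
  ThirdSum.congr_of_EQ h

theorem gb (k : ℕ) (a : ℚ) : gbinom (-a) k = (-1) ^ k * ∏ i ∈ range k, ((a + i : ℚ) / (1 + i)) := by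
  have hf : (k.factorial : ℚ) = ∏ i ∈ range k, (1 + i : ℚ) := by
    induction k with
    | zero => simp
    | succ k ih => rw [Nat.factorial_succ, prod_range_succ, ← ih]; push_cast; ring
  rw [gbinom, hf, prod_div_distrib, ← mul_div_assoc]
  congr 1
  have : (-1 : ℚ) ^ k = ∏ i ∈ range k, (-1 : ℚ) := by rw [prod_const, card_range]
  rw [this, ← prod_mul_distrib]
  exact prod_congr rfl fun i _ => by ring

theorem S1_eq (p : ℕ) : S₁ p = KS p 0 := by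
  rw [S₁, KS]
  refine sum_congr rfl fun k _ => ?_
  have h1 : ((-1 : ℚ) ^ k) ^ 2 = 1 := by rw [← pow_mul, mul_comm, pow_mul]; norm_num
  rw [ks, mul_comm, gb k, mul_pow, h1, one_mul, ← prod_pow]
  congr 1
  refine prod_congr rfl fun i _ => ?_
  rw [mul_zero, mul_zero, sub_zero, sub_zero, div_eq_mul_inv, mul_inv]
  ring

theorem S2_eq (p : ℕ) : S₂ p = HS p 0 := by
  rw [S₂, HS]
  refine sum_congr rfl fun k _ => ?_
  have h1 : ((-1 : ℚ) ^ k) * (-1) ^ k = 1 := by rw [← mul_pow]; norm_num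
  rw [hs, mul_comm, gb k, gb k]
  congr 1
  have e : ((-1 : ℚ) ^ k * ∏ i ∈ range k, ((1 / 4 + i : ℚ) / (1 + i))) *
      ((-1) ^ k * ∏ i ∈ range k, ((1 / 2 + i : ℚ) / (1 + i))) =
      (∏ i ∈ range k, ((1 / 4 + i : ℚ) / (1 + i))) * ∏ i ∈ range k, ((1 / 2 + i : ℚ) / (1 + i)) := by
    linear_combination ((∏ i ∈ range k, ((1 / 4 + i : ℚ) / (1 + i))) *
      ∏ i ∈ range k, ((1 / 2 + i : ℚ) / (1 + i))) * h1
  rw [e, ← prod_mul_distrib]
  refine prod_congr rfl fun i _ => ?_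
  rw [mul_zero, mul_zero, add_zero, add_zero, add_zero, div_eq_mul_inv, div_eq_mul_inv, mul_inv]
  ring

theorem S3_eq (p : ℕ) : S₃ p = Th.HT p 0 := ThirdSum.S_eq p

/-- `S_2` and `S_3`, `p = 1` modulo `12` -/
theorem rel1 {p M : ℕ} [Fact p.Prime] (hM : p = 12 * M + 1) :
    EQ p 2 (S₂ p) ((-1) ^ M * S₃ p) := by
  have h2 := S2_one (p := p) (j := 2 * M) hM rfl rfl rfl
  have h3 := Th.C1 (p := p) (j := 2 * M) Th.thA Th.thB hM rfl rfl rfl
  rw [S2_eq, S3_eq]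
  have m : ((-1 : ℚ)) ^ M ∈ Zp p := pow_mem (neg_mem (one_mem _)) _
  exact h2.trans ((EQ.refl m).mul h3).symm

/-- `S_1` and `S_3`, `p = 7` modulo `12` -/
theorem rel7a {p M : ℕ} [Fact p.Prime] (hM : p = 12 * M + 7) :
    EQ p 2 (S₁ p) (2 * ((-1) ^ M * S₃ p)) := by
  have h1 := S1_seven (p := p) (j := 2 * M + 1) Th.thA Th.thC Th.thV Th.thW hM rfl rfl rfl
  have h3 := Th.C7 (p := p) (j := 2 * M + 1) Th.thA Th.thC Th.thV Th.thW hM rfl rfl rfl
  rw [S1_eq, S3_eq]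
  have m : ((-1 : ℚ)) ^ M ∈ Zp p := pow_mem (neg_mem (one_mem _)) _
  have m2 : (2 : ℚ) ∈ Zp p := by exact_mod_cast nat_mem (p := p) 2
  exact h1.trans ((EQ.refl m2).mul ((EQ.refl m).mul h3)).symm

/-- `S_2` and `S_3`, `p = 7` modulo `12` -/
theorem rel7b {p M : ℕ} [Fact p.Prime] (hM : p = 12 * M + 7) :
    EQ p 2 (S₂ p) (2 * ((-1) ^ M * S₃ p)) := by
  by_cases h7 : p = 7
  · subst h7
    have hM0 : M = 0 := by omega
    subst hM0
    have e2 : S₂ 7 = 928455 / 256 := by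
      norm_num [S₂, gbinom, sum_range_succ, prod_range_succ, Nat.factorial]
    have e3 : S₃ 7 = 17898439440705 / 17592186044416 := by
      norm_num [S₃, gbinom, sum_range_succ, prod_range_succ, Nat.factorial]
    rw [e2, e3]
    refine ⟨⟨928455, 256, by norm_num, by norm_num⟩,
      ⟨17898439440705, 8796093022208, by norm_num, by norm_num⟩,
      ⟨650685151980015 / 8796093022208, ⟨650685151980015, 8796093022208, by norm_num, by norm_num⟩,
        by norm_num⟩⟩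
  · have h2 := S2_seven (p := p) (j := 2 * M + 1) hM rfl h7 rfl rfl
    have h3 := Th.C7 (p := p) (j := 2 * M + 1) Th.thA Th.thC Th.thV Th.thW hM rfl rfl rfl
    rw [S2_eq, S3_eq]
    have m : ((-1 : ℚ)) ^ M ∈ Zp p := pow_mem (neg_mem (one_mem _)) _
    have m2 : (2 : ℚ) ∈ Zp p := by exact_mod_cast nat_mem (p := p) 2
    exact h2.trans ((EQ.refl m2).mul ((EQ.refl m).mul h3)).symm

/-- the sign -/
theorem sg (a b : ℤ) : ((-1 : ℚ) ^ (a + b)) = (-1) ^ a * (-1) ^ b := zpow_add₀ (by norm_num) _ _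

/-- For every prime `p = 1 mod 3` there are integers `A`, `B` with `p = A^2 + 3 B^2`, and for all
such `A`, `B` all the stated congruences modulo `p^2` hold for `S_1(p)`, `S_2(p)`, `S_3(p)`:
the full statement Q1. -/
theorem result (p : ℕ) (hp : p.Prime) (h : p % 3 = 1) :
    (∃ A B : ℤ, (p : ℤ) = A ^ 2 + 3 * B ^ 2) ∧
    ∀ A B : ℤ, (p : ℤ) = A ^ 2 + 3 * B ^ 2 →
      (p % 12 = 1 → Odd A ∧
        CongrSq p (S₁ p) ((-1) ^ (((p : ℤ) - 1) / 4 + (A - 1) / 2) * (2 * A - p / (2 * A))) ∧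
        CongrSq p (S₂ p) ((-1) ^ (((p : ℤ) - 1) / 4 + (A - 1) / 2) * (2 * A - p / (2 * A))) ∧
        CongrSq p (S₃ p) ((-1) ^ ((A - 1) / 2) * (2 * A - p / (2 * A)))) ∧
      (p % 12 = 7 → Odd B ∧
        CongrSq p (S₁ p) ((-1) ^ (((p : ℤ) + 1) / 4 + (B - 1) / 2) * (6 * B - p / (2 * B))) ∧
        CongrSq p (S₂ p) ((-1) ^ (((p : ℤ) + 1) / 4 + (B - 1) / 2) * (6 * B - p / (2 * B))) ∧
        CongrSq p (S₃ p) ((-1) ^ ((B - 1) / 2) * (3 * B - p / (4 * B)))) ∧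
      (p % 12 = 1 ∨ p % 12 = 7) := by
  haveI : Fact p.Prime := ⟨hp⟩
  have hodd : p % 2 = 1 := by
    rcases hp.eq_two_or_odd with h2 | h2
    · omega
    · exact h2
  obtain ⟨hex, hall⟩ := ThirdSum.result p hp h
  refine ⟨hex, fun A B hAB => ⟨fun h12 => ?_, fun h12 => ?_, by omega⟩⟩
  · obtain ⟨hA, h3⟩ := (hall A B hAB).1 h12
    obtain ⟨M, hM⟩ : ∃ M, p = 12 * M + 1 := ⟨p / 12, by omega⟩
    have E3 : EQ p 2 (S₃ p) ((-1) ^ ((A - 1) / 2) * (2 * A - p / (2 * A))) := EQ_of_congr h3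
    have m : ((-1 : ℚ)) ^ M ∈ Zp p := pow_mem (neg_mem (one_mem _)) _
    have hs : ((-1 : ℚ)) ^ (((p : ℤ) - 1) / 4) = (-1) ^ M := by
      have : ((p : ℤ) - 1) / 4 = ((3 * M : ℕ) : ℤ) := by omega
      rw [this, zpow_natCast, pow_mul]; norm_num
    have E2 := (rel1 hM).trans ((EQ.refl (k := 2) m).mul E3)
    rw [← mul_assoc, ← hs, ← sg] at E2
    obtain ⟨q, hq, e⟩ := ((FirstSumOneModTwelve.result p hp h12).2 A B hAB).2
    have e' : S₁ p - ((-1) ^ (((p : ℤ) - 1) / 4 + (A - 1) / 2) * (2 * A - p / (2 * A))) =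
        (p : ℚ) ^ 2 * q := by
      rw [sg, hs]
      have hs' : ((-1 : ℚ)) ^ ((p - 1) / 4) = (-1) ^ M := by
        have : (p - 1) / 4 = 3 * M := by omega
        rw [this, pow_mul]; norm_num
      rw [hs'] at e
      have e0 : S₁ p = FirstSumOneModTwelve.sumOne p := by
        rw [S₁, FirstSumOneModTwelve.sumOne]
        refine sum_congr rfl fun k _ => ?_
        rw [gbinom, FirstSumOneModTwelve.binom, neg_div]
      rw [e0]; exact e
    have Iq : I p 2 (S₁ p - ((-1) ^ (((p : ℤ) - 1) / 4 + (A - 1) / 2) * (2 * A - p / (2 * A)))) := by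
      refine ⟨q, mem_of_den ?_, e'⟩
      intro hd
      have := (Nat.Prime.coprime_iff_not_dvd hp).1 hq.symm
      exact this hd
    have E1 : EQ p 2 (S₁ p) ((-1) ^ (((p : ℤ) - 1) / 4 + (A - 1) / 2) * (2 * A - p / (2 * A))) := by
      refine ⟨?_, E2.2.1, Iq⟩
      have := add_mem Iq.mem E2.2.1
      rwa [sub_add_cancel] at this
    exact ⟨hA, congr_of_EQ E1, congr_of_EQ E2, h3⟩
  · obtain ⟨hB, h3⟩ := (hall A B hAB).2 h12
    obtain ⟨M, hM⟩ : ∃ M, p = 12 * M + 7 := ⟨p / 12, by omega⟩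
    have E3 : EQ p 2 (S₃ p) ((-1) ^ ((B - 1) / 2) * (3 * B - p / (4 * B))) := EQ_of_congr h3
    have m : ((-1 : ℚ)) ^ M ∈ Zp p := pow_mem (neg_mem (one_mem _)) _
    have m2 : (2 : ℚ) ∈ Zp p := by exact_mod_cast nat_mem (p := p) 2
    have hs : ((-1 : ℚ)) ^ (((p : ℤ) + 1) / 4) = (-1) ^ M := by
      have : ((p : ℤ) + 1) / 4 = ((3 * M + 2 : ℕ) : ℤ) := by omega
      rw [this, zpow_natCast, pow_add, pow_mul]; norm_num
    have e : 2 * ((-1) ^ M * ((-1) ^ ((B - 1) / 2) * (3 * (B : ℚ) - p / (4 * B)))) =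
        (-1) ^ (((p : ℤ) + 1) / 4 + (B - 1) / 2) * (6 * B - p / (2 * B)) := by
      rw [sg, hs]
      have : (p : ℚ) / (4 * B) = 1 / 2 * (p / (2 * B)) := by
        rw [show (4 : ℚ) * B = 2 * (2 * B) by ring]
        field_simp
      rw [this]; ring
    have E1 := (rel7a hM).trans ((EQ.refl (k := 2) m2).mul ((EQ.refl (k := 2) m).mul E3))
    have E2 := (rel7b hM).trans ((EQ.refl (k := 2) m2).mul ((EQ.refl (k := 2) m).mul E3))
    rw [e] at E1 E2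
    exact ⟨hB, congr_of_EQ E1, congr_of_EQ E2, h3⟩

end Pool.Agent.Results.MP_5b0587_nt.AllThreeSums
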